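import Pool.Agent.MP_f00251_lc.Conv.Q2
import Pool.Agent.MP_f00251_lc.Skel
import Pool.Agent.MP_f00251_lc.Num.Num
import Pool.Agent.MP_f00251_lc.Pol.Main
import Pool.Agent.MP_f00251_lc.Mem.Dist

/-!
Optimal reversal sorting sequences can be sampled almost uniformly exactly when NP = RP.
-/

set_option autoImplicit false

namespace Pool.Agent.Results.MP_f00251_lc.Sampler

open Pool.Agent.MP_f00251_lc

theorem result : List.TFAE [HasSampler, HasCrudeSampler, N68a2faeb.NP = RP] := by
  have h := q2_rp (core_of num polyStmt isoStmt skelStmt) source distStmt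
  tfae_have 1 ↔ 3 := h.1
  tfae_have 2 ↔ 3 := h.2
  tfae_finish

end Pool.Agent.Results.MP_f00251_lc.Sampler
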