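import Pool.Agent.MP_f00251_lc.Mem.Main

/-!
Counting the optimal sorting sequences of a signed permutation is #P-complete.
-/

set_option autoImplicit false

namespace Pool.Agent.Results.MP_f00251_lc.SharpPComplete

open Pool.Agent.MP_f00251_lc

theorem result : SharpP numOpt ∧ ∀ f : List Bool → ℕ, SharpP f →
    ∃ (q : List Bool → List (List ℤ)) (post : List Bool × List ℕ → ℕ),
      N68a2faeb.IsPolyTime q ∧ N68a2faeb.IsPolyTime post ∧
      ∀ x, (∀ π ∈ q x, IsSP π) ∧ f x = post (x, (q x).map numOpt) :=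
  ⟨member, fun _ hf => H81.numOpt_eq ▸ H81.hardness hf⟩

end Pool.Agent.Results.MP_f00251_lc.SharpPComplete
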